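import Pool.Agent.H589.Five.Final
import Pool.Agent.H589.Five.Tau
import Pool.Graph.R_seed8.H892.Parry.Basic

/-!
# MP_1f45fc_nt: Perron numbers with a multiple with at most five monomials

Let `β < 6 / 5` be a Perron number different from Lehmer's number such that the product of the
minimal polynomial of `β` with some integer polynomial of Mahler measure one has at most five
nonzero coefficients. Then only finitely many powers of `β` are Parry numbers, with an explicit
bound for the exponents.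
-/

set_option autoImplicit false

open Polynomial

namespace Pool.Agent.Results.MP_1f45fc_nt.FiveMonomials

/-- `B` is a Parry number: the orbit of `1` under `x ↦ B x - ⌊B x⌋` is finite. -/
def IsParry (B : ℝ) : Prop :=
  Set.Finite (Set.range (fun k : ℕ => (fun x : ℝ => Int.fract (B * x))^[k] (1 : ℝ)))

/-- `β` is a Perron number. -/
def IsPerron (β : ℝ) : Prop :=
  1 < β ∧ IsIntegral ℤ β ∧ ∀ z : ℂ, aeval z (minpoly ℤ β) = 0 → z ≠ (β : ℂ) → ‖z‖ < β

/-- Some multiple of the minimal polynomial of `β`, the cofactor having Mahler measure one, has at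
most five nonzero coefficients. -/
def FiveTerm (β : ℝ) : Prop :=
  ∃ Φ : ℤ[X], (Φ.map (Int.castRingHom ℂ)).mahlerMeasure = 1 ∧
    (minpoly ℤ β * Φ).support.card ≤ 5

theorem result :
    ∀ τ : ℝ, 1 < τ →
      τ ^ 10 + τ ^ 9 - τ ^ 7 - τ ^ 6 - τ ^ 5 - τ ^ 4 - τ ^ 3 + τ + 1 = 0 →
      ∀ β : ℝ, IsPerron β → FiveTerm β →
        (β < τ → ∀ n : ℕ, 1 ≤ n → IsParry (β ^ n) →
          τ ^ n ≤ 2 ^ ((minpoly ℤ β).natDegree - 1) * β ^ n) ∧
        (β < 6 / 5 → β ≠ τ → {n : ℕ | 1 ≤ n ∧ IsParry (β ^ n)}.Finite) := by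
  intro τ hτ1 hτ β hβ h5
  obtain ⟨h1, hint, hP⟩ := hβ
  obtain ⟨Φ, hΦ, hcard⟩ := h5
  have hf : minpoly ℤ β ≠ 0 := (minpoly.monic hint).ne_zero
  have hML := Pool.Agent.H589.Five.MM_lehmer_eq hτ1 hτ
  have hgood := Pool.Agent.H589.Five.good_five_mul (minpoly ℤ β) Φ hf hΦ hcard
  have hroot : β ≤ Pool.Agent.H589.Pent.MM (minpoly ℤ β) :=
    Pool.Agent.H589.Pent.root_le_MM _ hf β h1.le (by
      rw [eval_map]
      have h1 : aeval (β : ℂ) (minpoly ℤ β) = ((aeval β (minpoly ℤ β) : ℝ) : ℂ) :=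
        aeval_algebraMap_apply ℂ β (minpoly ℤ β)
      have h2 : aeval (β : ℂ) (minpoly ℤ β) = 0 := by rw [h1, minpoly.aeval]; simp
      exact h2)
  have hgt : Pool.Agent.H589.Pent.MM (minpoly ℤ β) ≠ 1 := by linarith
  have hlt := Pool.Agent.H589.Pent.lehmer_lt
  rw [hML] at hlt hgood
  have hgen : ∀ m : ℝ, 0 ≤ m → m ≤ Pool.Agent.H589.Pent.MM (minpoly ℤ β) → ∀ n : ℕ, 1 ≤ n →
      IsParry (β ^ n) → m ^ n ≤ 2 ^ ((minpoly ℤ β).natDegree - 1) * β ^ n := by
    intro m hm0 hm n hn hp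
    have h := Pool.Agent.H892.Parry.mahler_pow_le h1 hint hP hn hp
    exact (pow_le_pow_left₀ hm0 hm n).trans h
  have hfin : ∀ m : ℝ, β < m → m ≤ Pool.Agent.H589.Pent.MM (minpoly ℤ β) →
      {n : ℕ | 1 ≤ n ∧ IsParry (β ^ n)}.Finite := by
    intro m hβm hm
    have hβ0 : 0 < β := by linarith
    obtain ⟨N, hN⟩ := pow_unbounded_of_one_lt (2 ^ ((minpoly ℤ β).natDegree - 1) : ℝ)
      ((one_lt_div hβ0).mpr hβm)
    apply (Set.finite_Iio N).subset
    intro n hn
    have h := hgen m (by linarith) hm n hn.1 hn.2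
    rw [Set.mem_Iio]
    by_contra hcon
    push Not at hcon
    have h2 : (m / β) ^ N ≤ (m / β) ^ n :=
      pow_le_pow_right₀ ((one_lt_div hβ0).mpr hβm).le hcon
    rw [div_pow m β n, le_div_iff₀ (by positivity)] at h2
    have h3 : (2 ^ ((minpoly ℤ β).natDegree - 1) : ℝ) * β ^ n < (m / β) ^ N * β ^ n :=
      mul_lt_mul_of_pos_right hN (by positivity)
    linarith
  have hτM : β < τ → τ ≤ Pool.Agent.H589.Pent.MM (minpoly ℤ β) := by
    intro _
    rcases hgood with h | h | h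
    · exact absurd h hgt
    · exact h.ge
    · linarith
  refine ⟨fun hβτ => hgen τ (by linarith) (hτM hβτ), fun hβ6 hne => ?_⟩
  rcases lt_or_gt_of_ne hne with hβτ | hβτ
  · exact hfin τ hβτ (hτM hβτ)
  · apply hfin (6 / 5) hβ6
    rcases hgood with h | h | h
    · exact absurd h hgt
    · linarith
    · exact h

end Pool.Agent.Results.MP_1f45fc_nt.FiveMonomials
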